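import Mathlib
import Pool.Agent.Helper14.Massey.Backward
import Pool.Agent.MK.Desc
import Pool.Agent.MSC.MS

/-!
# Uniform bounds for the symbol length of Massey products, all primes

For every prime `p` and every `n ≥ 2` there is one constant that bounds the symbol length of every
element of every `n`-fold Massey product of classes in `H¹(G_F(p), ℤ/p)`, for all fields `F`
containing a primitive `p`-th root of unity.

The proof contains a complete proof of the surjectivity of the norm residue homomorphism modulo `p`
(the Merkurjev-Suslin theorem), for `p = 2` in the folder `Pool/Agent/MK` and for odd `p` in the folders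
`Pool/Agent/MSG`, `MSN`, `MSC`, `MSX`, `MSK`, `MSA`, and the ultraproduct argument of
`Pool/Agent/Helper14/Massey`.
-/

set_option autoImplicit false

namespace Pool.Agent.Results.MP_fac77f_nt.MasseyAll

universe u

open Pool.Agent.Helper14.Massey

theorem result (p : ℕ) (hp : p.Prime) (n : ℕ) (hn : 2 ≤ n) :
    ∃ M : ℕ, ∀ (F : Type u) [Field F], (∃ ζ : F, IsPrimitiveRoot ζ p) →
      ∀ (φ : Fin n → H1 p (GalP p F)), ∀ α ∈ masseyProduct φ, symbolLength α ≤ (M : ℕ∞) := by
  refine massey_forward hp n hn ?_
  intro F _ hζ φ α _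
  have hm : ∃ m, IsSumCup m (α : H2 p (GalP p F)) := by
    rcases hp.eq_two_or_odd' with rfl | hodd
    · obtain ⟨ζ, hζ⟩ := hζ
      have h2 : (2 : F) ≠ 0 := by
        intro h0
        have h1 : ζ ^ 2 = 1 := hζ.pow_eq_one
        have h3 : (ζ - 1) ^ 2 = 0 := by linear_combination h1 + (1 - ζ) * h0
        have h4 : ζ = 1 := sub_eq_zero.mp (pow_eq_zero_iff (by norm_num) |>.mp h3)
        have h5 := hζ.eq_orderOf
        rw [h4, orderOf_one] at h5
        omega
      exact Pool.Agent.MK.surj2 h2 (α : H2 2 (GalP 2 F))
    · have hp2 : p ≠ 2 := by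
        rintro rfl
        exact absurd hodd (by decide)
      exact MSC.ms hp hp2 F hζ α
  obtain ⟨m, hm⟩ := hm
  exact ((symbolLength_le_iff.mpr hm).trans_lt (WithTop.coe_lt_top m)).ne

end Pool.Agent.Results.MP_fac77f_nt.MasseyAll
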